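import Pool.Agent.Lib.MP_f2256b_ntH79.Defs79
import Pool.Agent.Lib.MP_f2256b_nt.Tail

/-! # leaf: the mean square distance of the character sum from the geometric sum -/

set_option autoImplicit false

open ProbabilityTheory MeasureTheory Filter Topology Finset

namespace CharCLT

section
variable {q : ℕ} [Fact q.Prime]

private theorem c79_range (f : ZMod q → ℂ) :
    ∑ a ∈ range q, f (a : ZMod q) = ∑ x : ZMod q, f x := by
  have hq : 0 < q := (Fact.out : q.Prime).pos
  refine Finset.sum_bij' (fun a _ => (a : ZMod q)) (fun x _ => x.val) ?_ ?_ ?_ ?_ ?_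
  · intro a _
    exact Finset.mem_univ _
  · intro x _
    exact Finset.mem_range.2 (ZMod.val_lt x)
  · intro a ha
    exact ZMod.val_cast_of_lt (Finset.mem_range.1 ha)
  · intro x _
    exact ZMod.natCast_zmod_val x
  · intro a _
    rfl

private theorem c79_gauss (χ : DirichletCharacter ℂ q) (hχ : χ ≠ 1) (n : ZMod q) :
    ∑ a : ZMod q, χ⁻¹ a * ZMod.stdAddChar (a * n) =
      χ n * gaussSum χ⁻¹ (ZMod.stdAddChar (N := q)) := by
  by_cases hn : n = 0
  · subst hn
    have h1 : χ⁻¹ ≠ 1 := fun h => hχ (inv_eq_one.1 h)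
    simp only [mul_zero, AddChar.map_zero_eq_one, mul_one]
    rw [MulChar.sum_eq_zero_of_ne_one h1, MulChar.map_zero, zero_mul]
  · have h := gaussSum_mulShift_eq χ⁻¹ (ZMod.stdAddChar (N := q)) (Units.mk0 n hn)
    rw [inv_inv, Units.val_mk0] at h
    rw [← h, gaussSum]
    refine Finset.sum_congr rfl fun a _ => ?_
    rw [AddChar.mulShift_apply, mul_comm a n]

private theorem c79_S (χ : DirichletCharacter ℂ q) (H X : ℕ) :
    S χ H X = ∑ j ∈ range H, χ ((X : ZMod q) + (1 + (j : ZMod q))) := by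
  unfold S
  have h1 : Ioc X (X + H) = Ico (X + 1) (X + H + 1) := by
    ext n
    rw [Finset.mem_Ioc, Finset.mem_Ico]
    omega
  rw [h1, Finset.sum_Ico_eq_sum_range]
  have h2 : X + H + 1 - (X + 1) = H := by omega
  rw [h2]
  refine Finset.sum_congr rfl fun j _ => ?_
  congr 1
  push_cast
  ring

private theorem c79_mulTau (χ : DirichletCharacter ℂ q) (hχ : χ ≠ 1) (H : ℕ) (x : ZMod q) :
    (∑ j ∈ range H, χ (x + (1 + (j : ZMod q)))) * gaussSum χ⁻¹ (ZMod.stdAddChar (N := q)) =
      ∑ a : ZMod q, (χ⁻¹ a * ∑ j ∈ range H, ZMod.stdAddChar (a * (1 + (j : ZMod q)))) *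
        ZMod.stdAddChar (a * x) := by
  rw [Finset.sum_mul]
  have h1 : ∀ j ∈ range H, χ (x + (1 + (j : ZMod q))) * gaussSum χ⁻¹ (ZMod.stdAddChar (N := q)) =
      ∑ a : ZMod q, χ⁻¹ a * (ZMod.stdAddChar (a * x) *
        ZMod.stdAddChar (a * (1 + (j : ZMod q)))) := by
    intro j _
    rw [← c79_gauss χ hχ]
    refine Finset.sum_congr rfl fun a _ => ?_
    rw [mul_add a x, AddChar.map_add_eq_mul]
  rw [Finset.sum_congr rfl h1, Finset.sum_comm]
  refine Finset.sum_congr rfl fun a _ => ?_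
  rw [Finset.mul_sum, Finset.sum_mul]
  refine Finset.sum_congr rfl fun j _ => ?_
  ring

private theorem c79_w (H a : ℕ) (hH : 1 ≤ H) :
    ((q : ℂ) * H) * (w q H a : ℂ) =
      ((‖∑ j ∈ range H, (ZMod.stdAddChar ((a : ZMod q) * (j : ZMod q)) : ℂ)‖ ^ 2 : ℝ) : ℂ) := by
  have hq : (q : ℝ) ≠ 0 := by exact_mod_cast (Fact.out : q.Prime).ne_zero
  have hH0 : (H : ℝ) ≠ 0 := by
    have : H ≠ 0 := by omega
    exact_mod_cast this
  have h1 : ∀ j ∈ range H, (ZMod.stdAddChar ((a : ZMod q) * (j : ZMod q)) : ℂ) =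
      Complex.exp (2 * Real.pi * Complex.I * (a * j / q)) := by
    intro j _
    have h2 : ((a : ZMod q) * (j : ZMod q)) = (((a * j : ℕ) : ℤ) : ZMod q) := by push_cast; rfl
    rw [h2, ZMod.stdAddChar_coe]
    congr 1
    push_cast
    ring
  rw [Finset.sum_congr rfl h1]
  unfold w
  rw [show ((q : ℂ) * H) = (((q : ℝ) * (H : ℝ) : ℝ) : ℂ) by push_cast; rfl, ← Complex.ofReal_mul,
    mul_div_cancel₀ _ (mul_ne_zero hq hH0)]

private theorem c79_tau (χ : DirichletCharacter ℂ q) (hχ : χ ≠ 1) :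
    ‖gaussSum χ⁻¹ (ZMod.stdAddChar (N := q))‖ ^ 2 = q := by
  have h1 : χ⁻¹ ≠ 1 := fun h => hχ (inv_eq_one.1 h)
  have h2 := gaussSum_mul_gaussSum_eq_card h1 (ZMod.isPrimitive_stdAddChar q)
  rw [← star_gaussSum_eq, ZMod.card] at h2
  have h3 : gaussSum χ⁻¹ (ZMod.stdAddChar (N := q)) *
      (starRingEnd ℂ) (gaussSum χ⁻¹ (ZMod.stdAddChar (N := q))) = q := h2
  rw [Complex.mul_conj, Complex.normSq_eq_norm_sq] at h3
  exact_mod_cast h3

private theorem c79_rangeR (f : ZMod q → ℝ) :
    ∑ a ∈ range q, f (a : ZMod q) = ∑ x : ZMod q, f x := by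
  have hq : 0 < q := (Fact.out : q.Prime).pos
  refine Finset.sum_bij' (fun a _ => (a : ZMod q)) (fun x _ => x.val) ?_ ?_ ?_ ?_ ?_
  · intro a _
    exact Finset.mem_univ _
  · intro x _
    exact Finset.mem_range.2 (ZMod.val_lt x)
  · intro a ha
    exact ZMod.val_cast_of_lt (Finset.mem_range.1 ha)
  · intro x _
    exact ZMod.natCast_zmod_val x
  · intro a _
    rfl


private theorem c79_parseval (f : ZMod q → ℂ) :
    ∑ x : ZMod q, ‖∑ a : ZMod q, f a * ZMod.stdAddChar (a * x)‖ ^ 2 =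
      q * ∑ a : ZMod q, ‖f a‖ ^ 2 := by
  classical
  have key : ((∑ x : ZMod q, ‖∑ a : ZMod q, f a * ZMod.stdAddChar (a * x)‖ ^ 2 : ℝ) : ℂ) =
      ((q * ∑ a : ZMod q, ‖f a‖ ^ 2 : ℝ) : ℂ) := by
    push_cast
    have h1 : ∀ x : ZMod q, ((‖∑ a : ZMod q, f a * ZMod.stdAddChar (a * x)‖ : ℝ) : ℂ) ^ 2 =
        ∑ a : ZMod q, ∑ b : ZMod q, f a * (starRingEnd ℂ) (f b) *
          ZMod.stdAddChar (x * (a - b)) := by
      intro x
      rw [← Complex.mul_conj', map_sum, Finset.sum_mul_sum]
      refine Finset.sum_congr rfl fun a _ => Finset.sum_congr rfl fun b _ => ?_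
      have e1 : (ZMod.stdAddChar (x * (a - b)) : ℂ) =
          ZMod.stdAddChar (a * x) * (starRingEnd ℂ) (ZMod.stdAddChar (b * x)) := by
        rw [← AddChar.map_neg_eq_conj, ← AddChar.map_add_eq_mul]
        congr 1
        ring
      rw [e1, (starRingEnd ℂ).map_mul]
      ring
    rw [Finset.sum_congr rfl fun x _ => h1 x, Finset.sum_comm, Finset.mul_sum]
    refine Finset.sum_congr rfl fun a _ => ?_
    rw [Finset.sum_comm]
    have h2 : ∀ b : ZMod q, ∑ x : ZMod q, f a * (starRingEnd ℂ) (f b) *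
        ZMod.stdAddChar (x * (a - b)) =
        if b = a then (q : ℂ) * ((‖f a‖ : ℝ) : ℂ) ^ 2 else 0 := by
      intro b
      rw [← Finset.mul_sum, AddChar.sum_mulShift _ (ZMod.isPrimitive_stdAddChar q)]
      by_cases hb : b = a
      · subst hb
        rw [if_pos (by ring), if_pos rfl, ZMod.card, Complex.mul_conj']
        ring
      · rw [if_neg hb, if_neg, Nat.cast_zero, mul_zero]
        intro h0
        exact hb (sub_eq_zero.1 h0).symm
    rw [Finset.sum_congr rfl fun b _ => h2 b, Finset.sum_ite_eq' Finset.univ a,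
      if_pos (Finset.mem_univ _)]
  exact_mod_cast key

end

end CharCLT

namespace LegCLT

/-- The sign function on the residues: `1` on `(0, q/2)`, `e` on `(q/2, q)`. -/
noncomputable def sg (q : ℕ) (e : ℂ) (a : ℕ) : ℂ := if a = 0 then 0 else if 2 * a < q then 1 else e

/-- The geometric sum which replaces `√q` times the character sum. -/
noncomputable def geo (q H : ℕ) (e : ℂ) (X : ℕ) : ℂ :=
  ∑ n ∈ Ioc X (X + H), ∑ a ∈ range q, sg q e a *
    Complex.exp (2 * Real.pi * Complex.I * (a * n / q))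

open CharCLT in
/-- PROOF: Fourier expansion of the quadratic character (Gauss sum `τ`, `‖τ‖ ^ 2 = q`), Parseval over `X`, the symbol is
`1` at `1 ≤ a ≤ m` and `e = (-1 / q)` at `q - a`; the rest by `CharCLT.tail`, as `|χ(a) - sg a| ≤ 2`. -/
theorem core {q : ℕ} (hq : q.Prime) (h3 : 3 ≤ q) {m : ℕ} (hm : 1 ≤ m)
    (h : ∀ n : ℕ, 1 ≤ n → n ≤ m → n < q → jacobiSym (n : ℤ) q = 1) :
    ∃ (τ e : ℂ), ‖τ‖ ^ 2 = q ∧ ‖e‖ ≤ 1 ∧ ∀ H : ℕ, 1 ≤ H →
      ∑ X ∈ range q, ‖(S q H X : ℂ) - geo q H e X / τ‖ ^ 2 ≤ 2 * (q : ℝ) ^ 2 / m := by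
  have : Fact q.Prime := ⟨hq⟩
  have hq0 : (0 : ℝ) < q := by exact_mod_cast hq.pos
  have hq2 : q ≠ 2 := by omega
  set χ : DirichletCharacter ℂ q := (quadraticChar (ZMod q)).ringHomComp (Int.castRingHom ℂ) with hχd
  have hJ : ∀ n : ℕ, χ (n : ZMod q) = ((jacobiSym (n : ℤ) q : ℤ) : ℂ) := by
    intro n
    rw [← jacobiSym.legendreSym.to_jacobiSym, legendreSym]
    simp [hχd]
  have hchar : ringChar (ZMod q) ≠ 2 := by
    rw [ZMod.ringChar_zmod_n]
    exact hq2
  have hquad : ∀ a : ZMod q, a ≠ 0 → χ a = 1 ∨ χ a = -1 := by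
    intro a ha
    have h1 := quadraticChar_dichotomy ha
    rcases h1 with h1 | h1
    · left
      simp [hχd, h1]
    · right
      simp [hχd, h1]
  have hinv : χ⁻¹ = χ := by
    have h1 : χ.IsQuadratic := by
      intro a
      by_cases ha : a = 0
      · left
        rw [ha]
        exact MulChar.map_zero χ
      · rcases hquad a ha with h2 | h2
        · right; left; exact h2
        · right; right; exact h2
    exact h1.inv
  have hχ : χ ≠ 1 := by
    intro h1
    obtain ⟨a, ha⟩ := quadraticChar_exists_neg_one hchar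
    have h2 : χ a = -1 := by simp [hχd, ha]
    have ha0 : a ≠ 0 := by
      rintro rfl
      rw [MulChar.map_zero] at h2
      norm_num at h2
    rw [h1, MulChar.one_apply (Ne.isUnit ha0)] at h2
    norm_num at h2
  set τ := gaussSum χ⁻¹ (ZMod.stdAddChar (N := q)) with hτ
  have hτq : ‖τ‖ ^ 2 = q := c79_tau χ hχ
  have hτ0 : τ ≠ 0 := by
    intro h1
    rw [h1] at hτq
    simp at hτq
    linarith
  set e : ℂ := χ (-1) with he
  have hm1 : (-1 : ZMod q) ≠ 0 := neg_ne_zero.2 one_ne_zero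
  have henorm : ‖e‖ = 1 := by
    rcases hquad _ hm1 with h1 | h1 <;> rw [he, h1] <;> simp
  refine ⟨τ, e, hτq, henorm.le, fun H hH => ?_⟩
  have hH0 : (0 : ℝ) < H := by exact_mod_cast hH
  have hm0 : (0 : ℝ) < m := by exact_mod_cast hm
  -- the coefficient function
  set f : ZMod q → ℂ := fun a => (χ⁻¹ a - sg q e a.val) *
    ∑ j ∈ range H, ZMod.stdAddChar (a * (1 + (j : ZMod q))) with hf
  have hdiff : ∀ X : ℕ, (S q H X : ℂ) - geo q H e X / τ =
      (∑ a : ZMod q, f a * ZMod.stdAddChar (a * (X : ZMod q))) / τ := by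
    intro X
    have h1 : (S q H X : ℂ) * τ =
        ∑ a : ZMod q, (χ⁻¹ a * ∑ j ∈ range H, ZMod.stdAddChar (a * (1 + (j : ZMod q)))) *
        ZMod.stdAddChar (a * (X : ZMod q)) := by
      rw [← c79_mulTau χ hχ, ← c79_S]
      congr 1
      unfold S CharCLT.S
      push_cast
      exact Finset.sum_congr rfl fun n _ => (hJ n).symm
    have h2 : geo q H e X =
        ∑ a : ZMod q, (sg q e a.val * ∑ j ∈ range H, ZMod.stdAddChar (a * (1 + (j : ZMod q)))) *
        ZMod.stdAddChar (a * (X : ZMod q)) := by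
      rw [← c79_range (fun a : ZMod q => (sg q e a.val *
        ∑ j ∈ range H, ZMod.stdAddChar (a * (1 + (j : ZMod q)))) *
        ZMod.stdAddChar (a * (X : ZMod q)))]
      unfold geo
      rw [Finset.sum_comm]
      refine Finset.sum_congr rfl fun a ha => ?_
      have ha' : ((a : ZMod q)).val = a := ZMod.val_cast_of_lt (Finset.mem_range.1 ha)
      show _ = (sg q e ((a : ZMod q)).val * _) * _
      rw [ha', ← Finset.mul_sum, mul_assoc (sg q e a), Finset.sum_mul]
      congr 1
      have h5 : Ioc X (X + H) = Ico (X + 1) (X + H + 1) := by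
        ext n
        rw [Finset.mem_Ioc, Finset.mem_Ico]
        omega
      rw [h5, Finset.sum_Ico_eq_sum_range]
      have h6 : X + H + 1 - (X + 1) = H := by omega
      rw [h6]
      refine Finset.sum_congr rfl fun j _ => ?_
      rw [← AddChar.map_add_eq_mul]
      have h7 : ((a : ZMod q)) * (1 + (j : ZMod q)) + (a : ZMod q) * (X : ZMod q) =
          (((a * (X + 1 + j) : ℕ) : ℤ) : ZMod q) := by
        push_cast
        ring
      rw [h7, ZMod.stdAddChar_coe]
      congr 1
      push_cast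
      ring
    rw [eq_div_iff hτ0, sub_mul, div_mul_cancel₀ _ hτ0, h1, h2, ← Finset.sum_sub_distrib]
    refine Finset.sum_congr rfl fun a _ => ?_
    rw [hf]
    ring
  have hsum : ∑ X ∈ range q, ‖(S q H X : ℂ) - geo q H e X / τ‖ ^ 2 = ∑ a : ZMod q, ‖f a‖ ^ 2 := by
    have h1 : ∀ X ∈ range q, ‖(S q H X : ℂ) - geo q H e X / τ‖ ^ 2 =
        ‖∑ a : ZMod q, f a * ZMod.stdAddChar (a * (X : ZMod q))‖ ^ 2 / q := by
      intro X _
      rw [hdiff X, norm_div, div_pow, hτq]
    rw [Finset.sum_congr rfl h1, ← Finset.sum_div,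
      c79_rangeR (fun x : ZMod q => ‖∑ a : ZMod q, f a * ZMod.stdAddChar (a * x)‖ ^ 2),
      c79_parseval, mul_div_cancel_left₀ _ hq0.ne']
  rw [hsum, ← c79_rangeR (fun a : ZMod q => ‖f a‖ ^ 2)]
  have hfa : ∀ a ∈ range q, ‖f (a : ZMod q)‖ ^ 2 ≤
      if m < a ∧ a + m < q then 4 * ((q : ℝ) * H) * w q H a else 0 := by
    intro a ha
    have haq := Finset.mem_range.1 ha
    have hval : ((a : ZMod q)).val = a := ZMod.val_cast_of_lt haq
    have hD : ‖∑ j ∈ range H, (ZMod.stdAddChar ((a : ZMod q) * (1 + (j : ZMod q))) : ℂ)‖ ^ 2 =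
        (q : ℝ) * H * w q H a := by
      have h1 : (∑ j ∈ range H, (ZMod.stdAddChar ((a : ZMod q) * (1 + (j : ZMod q))) : ℂ)) =
          ZMod.stdAddChar (a : ZMod q) *
            ∑ j ∈ range H, (ZMod.stdAddChar ((a : ZMod q) * (j : ZMod q)) : ℂ) := by
        rw [Finset.mul_sum]
        refine Finset.sum_congr rfl fun j _ => ?_
        rw [mul_add, mul_one, AddChar.map_add_eq_mul]
      rw [h1, norm_mul, AddChar.norm_apply, one_mul]
      have h2 := c79_w (q := q) H a hH
      exact_mod_cast h2.symm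
    have hfe : ‖f (a : ZMod q)‖ ^ 2 = ‖χ⁻¹ (a : ZMod q) - sg q e a‖ ^ 2 * ((q : ℝ) * H * w q H a) := by
      rw [← hD, ← mul_pow, ← norm_mul]
      show ‖(χ⁻¹ (a : ZMod q) - sg q e ((a : ZMod q)).val) * _‖ ^ 2 = _
      rw [hval]
    have hw : 0 ≤ w q H a := by
      unfold w
      positivity
    rw [hfe, hinv]
    by_cases hc : m < a ∧ a + m < q
    · rw [if_pos hc]
      have h1 : ‖χ (a : ZMod q) - sg q e a‖ ≤ 2 := by
        have h2 : ‖χ (a : ZMod q)‖ ≤ 1 := by
          by_cases h0 : (a : ZMod q) = 0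
          · rw [h0, MulChar.map_zero]
            simp
          · rcases hquad _ h0 with h4 | h4 <;> rw [h4] <;> simp
        have h5 : ‖sg q e a‖ ≤ 1 := by
          unfold sg
          split_ifs
          · simp
          · simp
          · exact henorm.le
        calc ‖χ (a : ZMod q) - sg q e a‖ ≤ ‖χ (a : ZMod q)‖ + ‖sg q e a‖ := norm_sub_le _ _
          _ ≤ 2 := by linarith
      have h6 : ‖χ (a : ZMod q) - sg q e a‖ ^ 2 ≤ 4 := by
        nlinarith [norm_nonneg (χ (a : ZMod q) - sg q e a)]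
      have h7 : 0 ≤ (q : ℝ) * H * w q H a := by positivity
      calc _ ≤ 4 * ((q : ℝ) * H * w q H a) := mul_le_mul_of_nonneg_right h6 h7
        _ = _ := by ring
    · rw [if_neg hc]
      have h1 : χ (a : ZMod q) = sg q e a := by
        by_cases ha0 : a = 0
        · subst ha0
          rw [Nat.cast_zero, MulChar.map_zero]
          simp [sg]
        have hsmall : ∀ b : ℕ, 1 ≤ b → b ≤ m → b < q → χ (b : ZMod q) = 1 := by
          intro b hb1 hb2 hb3
          rw [hJ, h b hb1 hb2 hb3]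
          simp
        have hneg : ∀ b : ℕ, b < q → χ ((q - b : ℕ) : ZMod q) = e * χ (b : ZMod q) := by
          intro b hb
          rw [Nat.cast_sub hb.le, he, ← map_mul]
          simp
        have hee : e * e = 1 := by
          rw [he, ← map_mul]
          simp
        unfold sg
        rw [if_neg ha0]
        by_cases hm' : a ≤ m
        · have h2 := hsmall a (by omega) hm' haq
          rw [h2]
          split_ifs with h4
          · rfl
          · have h5 := hsmall (q - a) (by omega) (by omega) (by omega)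
            rw [hneg a haq, h2, mul_one] at h5
            exact h5.symm
        · have hge : q ≤ a + m := by
            by_contra h4
            exact hc ⟨by omega, by omega⟩
          have h5 := hsmall (q - a) (by omega) (by omega) (by omega)
          rw [hneg a haq] at h5
          have h6 : χ (a : ZMod q) = e := by
            calc χ (a : ZMod q) = (e * e) * χ (a : ZMod q) := by rw [hee, one_mul]
              _ = e * (e * χ (a : ZMod q)) := by ring
              _ = e := by rw [h5, mul_one]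
          rw [h6]
          split_ifs with h4
          · exfalso
            omega
          · rfl
      rw [h1, sub_self, norm_zero]
      simp
  calc ∑ a ∈ range q, ‖f (a : ZMod q)‖ ^ 2
      ≤ ∑ a ∈ range q, if m < a ∧ a + m < q then 4 * ((q : ℝ) * H) * w q H a else 0 :=
        Finset.sum_le_sum hfa
    _ = 4 * ((q : ℝ) * H) * ∑ a ∈ (range q).filter (fun a => m < a ∧ a + m < q), w q H a := by
        rw [← Finset.sum_filter, Finset.mul_sum]
    _ ≤ 4 * ((q : ℝ) * H) * ((q : ℝ) / (2 * H * m)) :=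
        mul_le_mul_of_nonneg_left (tail hH hm) (by positivity)
    _ = 2 * (q : ℝ) ^ 2 / m := by
        field_simp
        ring

end LegCLT
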