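import Mathlib

/-! # MP_f2256b_nt: sums of Legendre symbols in short moving intervals (helper79) -/

set_option autoImplicit false

open ProbabilityTheory MeasureTheory Filter Topology Finset

namespace LegCLT

/-- `(X+1 / q) + ... + (X+H / q)`, a sum of Legendre symbols if `q` is an odd prime (Mathlib's
Jacobi symbol). -/
noncomputable def S (q H X : ℕ) : ℝ :=
  ∑ n ∈ Ioc X (X + H), ((jacobiSym (n : ℤ) q : ℤ) : ℝ)

/-- The mean of `f (S(X) / √H)`, `X` uniform in `{0, ..., q - 1}`. -/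
noncomputable def A (q H : ℕ) (f : ℝ → ℝ) : ℝ :=
  (1 / (q : ℝ)) * ∑ X ∈ range q, f (S q H X / √(H : ℝ))

/-- The central limit theorem for the Legendre symbols mod `q k` and the lengths `H k`:
`S(X) / √H` converges in distribution to `N(0, 1)`. -/
def CLT (q H : ℕ → ℕ) : Prop :=
  ∀ f : ℝ → ℝ, Continuous f → (∃ C : ℝ, ∀ x, |f x| ≤ C) →
    Tendsto (fun k => A (q k) (H k) f) atTop (𝓝 (∫ x, f x ∂(gaussianReal 0 1)))

/-- Part (a) of Q1, for sequences of primes. -/
def Q1a : Prop :=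
  ∀ q H : ℕ → ℕ, (∀ k, (q k).Prime) → (∀ k, 1 ≤ H k ∧ H k ≤ q k) →
    Tendsto (fun k => (H k : ℝ)) atTop atTop → Tendsto (fun k => (q k : ℝ)) atTop atTop →
    Tendsto (fun k => Real.log ((q k : ℝ) / (H k : ℝ)) / Real.log (Real.log (q k : ℝ)))
      atTop atTop → CLT q H

end LegCLT
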