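import Pool.Agent.Lib.MP_f2256b_ntH79.Core79

/-! # leaf: the geometric sum is small away from 0 -/

set_option autoImplicit false

open ProbabilityTheory MeasureTheory Filter Topology Finset

namespace LegCLT

private theorem geo79_geom {z : ℂ} (h1 : ‖z‖ = 1) (hz : z ≠ 1) {a b : ℕ} (hab : a ≤ b) :
    ‖∑ i ∈ Ico a b, z ^ i‖ ≤ 2 / ‖z - 1‖ := by
  rw [geom_sum_Ico hz hab, norm_div]
  refine div_le_div_of_nonneg_right ?_ (norm_nonneg _)
  refine (norm_sub_le _ _).trans ?_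
  rw [norm_pow, norm_pow, h1, one_pow, one_pow]
  norm_num

private theorem geo79_sin {q n d : ℕ} (hd : 1 ≤ d) (h1 : d ≤ n) (h2 : n + d ≤ q) :
    2 * (d : ℝ) / q ≤ Real.sin (Real.pi * n / q) := by
  have hq : (0 : ℝ) < q := by
    have : 0 < q := by omega
    exact_mod_cast this
  have hdn : (d : ℝ) ≤ n := by exact_mod_cast h1
  have hnd : (n : ℝ) + d ≤ q := by exact_mod_cast h2
  have hd0 : (1 : ℝ) ≤ d := by exact_mod_cast hd
  have hpi := Real.pi_pos
  rcases le_total (2 * (n : ℝ)) q with h | h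
  · have h3 := Real.mul_le_sin (x := Real.pi * n / q) (by positivity) (by
      rw [div_le_div_iff₀ hq (by norm_num)]
      nlinarith)
    refine le_trans ?_ h3
    have h4 : 2 / Real.pi * (Real.pi * n / q) = 2 * (n : ℝ) / q := by field_simp
    rw [h4]
    gcongr
  · have h0 : (0 : ℝ) ≤ (q : ℝ) - n := by linarith
    have h5 : Real.sin (Real.pi * n / q) = Real.sin (Real.pi * ((q : ℝ) - n) / q) := by
      rw [← Real.sin_pi_sub]
      congr 1
      field_simp
    rw [h5]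
    have h3 := Real.mul_le_sin (x := Real.pi * ((q : ℝ) - n) / q) (by positivity) (by
      rw [div_le_div_iff₀ hq (by norm_num)]
      nlinarith)
    refine le_trans ?_ h3
    have h4 : 2 / Real.pi * (Real.pi * ((q : ℝ) - n) / q) = 2 * ((q : ℝ) - n) / q := by field_simp
    rw [h4]
    gcongr
    linarith

private theorem geo79_one {q n d : ℕ} {e : ℂ} (hq : Odd q) (he : ‖e‖ ≤ 1) (hd : 1 ≤ d)
    (h1 : d ≤ n) (h2 : n + d ≤ q) :
    ‖∑ a ∈ range q, sg q e a * Complex.exp (2 * Real.pi * Complex.I * (a * n / q))‖ ≤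
      (q : ℝ) / d := by
  have hq0 : (0 : ℝ) < q := by
    have : 0 < q := by omega
    exact_mod_cast this
  have hd0 : (0 : ℝ) < d := by exact_mod_cast hd
  set z : ℂ := Complex.exp (Complex.I * ((2 * Real.pi * n / q : ℝ) : ℂ)) with hz
  have hn1 : ‖z‖ = 1 := by
    rw [hz, mul_comm]
    exact Complex.norm_exp_ofReal_mul_I _
  have hnm : 4 * (d : ℝ) / q ≤ ‖z - 1‖ := by
    rw [hz, Complex.norm_exp_I_mul_ofReal_sub_one]
    have h3 := geo79_sin hd h1 h2
    have h4 : (2 * Real.pi * n / q) / 2 = Real.pi * n / q := by ring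
    rw [h4, Real.norm_eq_abs]
    refine le_trans ?_ (le_abs_self _)
    have : 4 * (d : ℝ) / q = 2 * (2 * (d : ℝ) / q) := by ring
    rw [this]
    linarith
  have hpos : 0 < 4 * (d : ℝ) / q := by positivity
  have hz1 : z ≠ 1 := by
    intro h
    rw [h, sub_self, norm_zero] at hnm
    linarith
  have hterm : ∀ a : ℕ, Complex.exp (2 * Real.pi * Complex.I * (a * n / q)) = z ^ a := by
    intro a
    rw [hz, ← Complex.exp_nat_mul]
    congr 1
    push_cast
    ring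
  simp only [hterm]
  obtain ⟨m, rfl⟩ := hq
  have hsplit : ∑ a ∈ range (2 * m + 1), sg (2 * m + 1) e a * z ^ a =
      ∑ a ∈ Ico 1 (m + 1), z ^ a + e * ∑ a ∈ Ico (m + 1) (2 * m + 1), z ^ a := by
    rw [Finset.range_eq_Ico, ← Finset.sum_Ico_consecutive _ (show 0 ≤ 1 by omega)
      (show 1 ≤ 2 * m + 1 by omega), ← Finset.sum_Ico_consecutive _ (show 1 ≤ m + 1 by omega)
      (show m + 1 ≤ 2 * m + 1 by omega)]
    have e0 : ∑ a ∈ Ico 0 1, sg (2 * m + 1) e a * z ^ a = 0 := by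
      simp [sg]
    have e1 : ∑ a ∈ Ico 1 (m + 1), sg (2 * m + 1) e a * z ^ a = ∑ a ∈ Ico 1 (m + 1), z ^ a := by
      refine Finset.sum_congr rfl fun a ha => ?_
      rw [Finset.mem_Ico] at ha
      unfold sg
      rw [if_neg (by omega), if_pos (by omega), one_mul]
    have e2 : ∑ a ∈ Ico (m + 1) (2 * m + 1), sg (2 * m + 1) e a * z ^ a =
        e * ∑ a ∈ Ico (m + 1) (2 * m + 1), z ^ a := by
      rw [Finset.mul_sum]
      refine Finset.sum_congr rfl fun a ha => ?_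
      rw [Finset.mem_Ico] at ha
      unfold sg
      rw [if_neg (by omega), if_neg (by omega)]
    rw [e0, e1, e2, zero_add]
  rw [hsplit]
  have g1 := geo79_geom hn1 hz1 (show 1 ≤ m + 1 by omega)
  have g2 := geo79_geom hn1 hz1 (show m + 1 ≤ 2 * m + 1 by omega)
  have g3 : ‖e * ∑ a ∈ Ico (m + 1) (2 * m + 1), z ^ a‖ ≤ 2 / ‖z - 1‖ := by
    rw [norm_mul]
    exact (mul_le_of_le_one_left (norm_nonneg _) he).trans g2
  refine (norm_add_le _ _).trans ((add_le_add g1 g3).trans ?_)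
  have g4 : 2 / ‖z - 1‖ ≤ 2 / (4 * (d : ℝ) / ((2 * m + 1 : ℕ) : ℝ)) :=
    div_le_div_of_nonneg_left (by norm_num) hpos hnm
  have g5 : 2 / (4 * (d : ℝ) / ((2 * m + 1 : ℕ) : ℝ)) = ((2 * m + 1 : ℕ) : ℝ) / d / 2 := by
    field_simp
    norm_num
  rw [g5] at g4
  linarith

/-- PROOF: `∑_(0 < a < q/2) e(a n / q)` and `∑_(q/2 < a < q) e(a n / q)` are geometric sums, at most
`2 / |e(n / q) - 1| = 1 / |sin (π n / q)| ≤ q / (2 d)` if `d ≤ n ≤ q - d`. -/
theorem geo_le {q H d X : ℕ} {e : ℂ} (hq : Odd q) (he : ‖e‖ ≤ 1) (hd : 1 ≤ d) (h1 : d ≤ X)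
    (h2 : X + H + d ≤ q) : ‖geo q H e X‖ ≤ (H : ℝ) * q / d := by
  unfold geo
  refine (norm_sum_le _ _).trans ?_
  have h3 : ∀ n ∈ Ioc X (X + H), ‖∑ a ∈ range q, sg q e a *
      Complex.exp (2 * Real.pi * Complex.I * (a * n / q))‖ ≤ (q : ℝ) / d := by
    intro n hn
    rw [Finset.mem_Ioc] at hn
    exact geo79_one hq he hd (by omega) (by omega)
  refine (Finset.sum_le_sum h3).trans ?_
  rw [Finset.sum_const, Nat.card_Ioc, nsmul_eq_mul]
  have : X + H - X = H := by omega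
  rw [this, mul_div_assoc]

end LegCLT
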