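import Pool.Agent.Lib.MP_f2256b_ntH79.Prob79

/-! # leaf: convergence to the point mass at 0 -/

set_option autoImplicit false

open ProbabilityTheory MeasureTheory Filter Topology Finset

namespace LegCLT

private theorem lim_dev {q H : ℕ} (hq : 0 < q) {f : ℝ → ℝ} {C ε δ : ℝ} (hC : ∀ x, |f x| ≤ C)
    (hδ : ∀ x, |x| < δ → |f x - f 0| ≤ ε) (hε : 0 ≤ ε) :
    |A q H f - f 0| ≤
      ε + 2 * C * ((((range q).filter fun X => δ ≤ |S q H X / √(H : ℝ)|).card : ℝ) / q) := by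
  have hq0 : (0 : ℝ) < q := by exact_mod_cast hq
  have hC0 : 0 ≤ C := (abs_nonneg _).trans (hC 0)
  have e1 : A q H f - f 0 = (1 / (q : ℝ)) * ∑ X ∈ range q, (f (S q H X / √(H : ℝ)) - f 0) := by
    unfold A
    rw [Finset.sum_sub_distrib, Finset.sum_const, card_range, nsmul_eq_mul, mul_sub]
    congr 1
    field_simp
  have h1 : ∀ X ∈ range q, |f (S q H X / √(H : ℝ)) - f 0| ≤
      ε + 2 * C * (if δ ≤ |S q H X / √(H : ℝ)| then 1 else 0) := by
    intro X _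
    by_cases hc : δ ≤ |S q H X / √(H : ℝ)|
    · rw [if_pos hc, mul_one]
      have a1 := hC (S q H X / √(H : ℝ))
      have a2 := hC 0
      have a3 : |f (S q H X / √(H : ℝ)) - f 0| ≤ |f (S q H X / √(H : ℝ))| + |f 0| := abs_sub _ _
      linarith
    · rw [if_neg hc, mul_zero, add_zero]
      exact hδ _ (not_le.mp hc)
  rw [e1, abs_mul, abs_of_pos (by positivity)]
  have h2 : |∑ X ∈ range q, (f (S q H X / √(H : ℝ)) - f 0)| ≤
      ∑ X ∈ range q, (ε + 2 * C * (if δ ≤ |S q H X / √(H : ℝ)| then 1 else 0)) :=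
    (Finset.abs_sum_le_sum_abs _ _).trans (Finset.sum_le_sum h1)
  have h3 : ∑ X ∈ range q, (ε + 2 * C * (if δ ≤ |S q H X / √(H : ℝ)| then (1 : ℝ) else 0)) =
      q * ε + 2 * C * (((range q).filter fun X => δ ≤ |S q H X / √(H : ℝ)|).card : ℝ) := by
    rw [Finset.sum_add_distrib, Finset.sum_const, card_range, nsmul_eq_mul, ← Finset.mul_sum,
      Finset.sum_boole]
  rw [h3] at h2
  calc 1 / (q : ℝ) * |∑ X ∈ range q, (f (S q H X / √(H : ℝ)) - f 0)|
      ≤ 1 / (q : ℝ) * (q * ε +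
        2 * C * (((range q).filter fun X => δ ≤ |S q H X / √(H : ℝ)|).card : ℝ)) :=
        mul_le_mul_of_nonneg_left h2 (by positivity)
    _ = _ := by field_simp

/-- PROOF: for `δ > 0` take `d = ⌈2 √(q H) / δ⌉` in `prob` (`m = y k`): the proportion of `X` with
`|S / √H| ≥ δ` is at most `H / q + 2 d / q + 8 q / (y H δ ^ 2) → 0`; continuity of `f` at `0` and `|f| ≤ C`. -/
theorem lim (q H y : ℕ → ℕ) (hq : ∀ k, (q k).Prime) (h3 : ∀ k, 3 ≤ q k)
    (hH : ∀ k, 1 ≤ H k ∧ H k ≤ q k) (h0 : Tendsto (fun k => (H k : ℝ) / q k) atTop (𝓝 0))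
    (hy : Tendsto (fun k => (y k : ℝ) * H k / q k) atTop atTop)
    (h : ∀ k, ∀ n : ℕ, 1 ≤ n → n ≤ y k → n < q k → jacobiSym (n : ℤ) (q k) = 1)
    (f : ℝ → ℝ) (hf : Continuous f) (hb : ∃ C : ℝ, ∀ x, |f x| ≤ C) :
    Tendsto (fun k => A (q k) (H k) f) atTop (𝓝 (f 0)) := by
  obtain ⟨C, hC⟩ := hb
  have hC0 : 0 ≤ C := (abs_nonneg _).trans (hC 0)
  rw [Metric.tendsto_nhds]
  intro ε hε
  obtain ⟨δ, hδ, hfδ⟩ := Metric.continuousAt_iff.mp (hf.continuousAt (x := 0)) (ε / 2) (half_pos hε)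
  have hfδ' : ∀ x, |x| < δ → |f x - f 0| ≤ ε / 2 := by
    intro x hx
    have := hfδ (x := x) (by rw [Real.dist_eq, sub_zero]; exact hx)
    rw [Real.dist_eq] at this
    exact this.le
  have hB : Tendsto (fun k => 3 * ((H k : ℝ) / q k) + 4 / δ * √((H k : ℝ) / q k) +
      8 / δ ^ 2 * ((y k : ℝ) * H k / q k)⁻¹) atTop (𝓝 0) := by
    have t1 := h0.const_mul 3
    have t2 := ((Real.continuous_sqrt.tendsto 0).comp h0).const_mul (4 / δ)
    have t3 := (tendsto_inv_atTop_zero.comp hy).const_mul (8 / δ ^ 2)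
    have := (t1.add t2).add t3
    rw [Real.sqrt_zero, mul_zero, mul_zero, mul_zero, add_zero, add_zero] at this
    exact this
  have hBe := (tendsto_order.mp hB).2 (ε / (4 * (C + 1))) (by positivity)
  filter_upwards [hBe, hy.eventually_ge_atTop 1] with k hk hk1
  have hqp : 0 < q k := (hq k).pos
  have hq0 : (0 : ℝ) < q k := by exact_mod_cast hqp
  have hH1 : (1 : ℝ) ≤ H k := by exact_mod_cast (hH k).1
  have hH0 : (0 : ℝ) < H k := by linarith
  have hyk : 1 ≤ y k := by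
    by_contra hc
    have : y k = 0 := by omega
    rw [this] at hk1
    simp at hk1
    linarith
  have hy0 : (0 : ℝ) < y k := by exact_mod_cast hyk
  have hx0 : 0 < 2 * √((q k : ℝ) * H k) / δ := by
    have : 0 < √((q k : ℝ) * H k) := Real.sqrt_pos.mpr (by positivity)
    positivity
  obtain ⟨d, hd⟩ : ∃ d : ℕ, d = ⌈2 * √((q k : ℝ) * H k) / δ⌉₊ := ⟨_, rfl⟩
  have hd1 : 1 ≤ d := by
    rw [hd]
    exact Nat.ceil_pos.mpr hx0
  have hdl : 2 * √((q k : ℝ) * H k) ≤ δ * d := by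
    have := Nat.le_ceil (2 * √((q k : ℝ) * H k) / δ)
    rw [← hd, div_le_iff₀ hδ] at this
    linarith
  have hdu : (d : ℝ) ≤ 2 * √((q k : ℝ) * H k) / δ + 1 := by
    rw [hd]
    exact (Nat.ceil_lt_add_one hx0.le).le
  have hp := prob (hq k) (h3 k) (hH k).1 hyk hd1 (h k) hδ hdl
  have hcard : ((((range (q k)).filter fun X => δ ≤ |S (q k) (H k) X / √(H k : ℝ)|).card : ℝ) / q k)
      ≤ 3 * ((H k : ℝ) / q k) + 4 / δ * √((H k : ℝ) / q k) +
      8 / δ ^ 2 * ((y k : ℝ) * H k / q k)⁻¹ := by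
    rw [div_le_iff₀ hq0]
    refine hp.trans ?_
    have e1 : √((q k : ℝ) * H k) = q k * √((H k : ℝ) / q k) := by
      have : (q k : ℝ) * H k = (q k : ℝ) ^ 2 * ((H k : ℝ) / q k) := by
        field_simp
      rw [this, Real.sqrt_mul (by positivity), Real.sqrt_sq hq0.le]
    have e2 : (8 : ℝ) * (q k : ℝ) ^ 2 / (y k * H k * δ ^ 2) =
        8 / δ ^ 2 * ((y k : ℝ) * H k / q k)⁻¹ * q k := by
      field_simp
    have e3 : 3 * ((H k : ℝ) / q k) * q k = 3 * H k := by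
      field_simp
    rw [e1] at hdu
    have e4 : (2 : ℝ) * (2 * (q k * √((H k : ℝ) / q k)) / δ) = 4 / δ * √((H k : ℝ) / q k) * q k := by
      ring
    rw [add_mul, add_mul, e2, e3, ← e4]
    linarith
  have hdev := lim_dev (q := q k) (H := H k) hqp hC hfδ' (half_pos hε).le
  rw [Real.dist_eq]
  refine lt_of_le_of_lt hdev ?_
  have h5 : 2 * C * ((((range (q k)).filter fun X => δ ≤ |S (q k) (H k) X / √(H k : ℝ)|).card : ℝ)
      / q k) ≤ 2 * C * (ε / (4 * (C + 1))) :=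
    mul_le_mul_of_nonneg_left (hcard.trans hk.le) (by positivity)
  have h6 : 2 * C * (ε / (4 * (C + 1))) < ε / 2 := by
    rw [mul_div_assoc', div_lt_iff₀ (by positivity)]
    nlinarith
  linarith

end LegCLT
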