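import Pool.Agent.Lib.MP_f2256b_ntH79.Sub79

/-! # leaf: Q1(a) bounds the least quadratic non-residue -/

set_option autoImplicit false

open ProbabilityTheory MeasureTheory Filter Topology Finset

namespace LegCLT

/-- There is a non-residue below `q`. -/
theorem exists_nonres {q : ℕ} (hq : q.Prime) (h3 : 3 ≤ q) :
    ∃ n : ℕ, 1 ≤ n ∧ n < q ∧ jacobiSym (n : ℤ) q = -1 := by
  have : Fact q.Prime := ⟨hq⟩
  obtain ⟨a, ha⟩ := quadraticChar_exists_neg_one (F := ZMod q) (by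
    rw [ZMod.ringChar_zmod_n]
    omega)
  refine ⟨a.val, ?_, ZMod.val_lt a, ?_⟩
  · rcases Nat.eq_zero_or_pos a.val with h0 | h0
    · rw [(ZMod.val_eq_zero a).1 h0] at ha
      simp at ha
    · exact h0
  · rw [← jacobiSym.legendreSym.to_jacobiSym, legendreSym]
    simpa using ha

/-- Proof: otherwise for each `k` (exponent `C = 2 (k + 1)`) there is a prime `q k ≥ 3` with `(n / q k) = 1` for all
`1 ≤ n < q k`, `n ≤ (log q k) ^ (2 (k + 1))`; by `exists_nonres` `(log q k) ^ (2 (k + 1)) < q k`, and `q k → ∞` as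
`log q > 1`; take `H k = ⌊q k / (log q k) ^ (k + 1)⌋ ≥ √(q k) - 1` and apply `Q1a` and `sub`: for large `k` some
`n ≤ C q / H ≤ 2 C (log q) ^ (k + 1) < (log q) ^ (2 (k + 1))` is a non-residue. -/
theorem logBound (h : Q1a) : ∃ C : ℕ, ∀ q : ℕ, q.Prime → 3 ≤ q →
    ∃ n : ℕ, n < q ∧ (n : ℝ) ≤ Real.log q ^ C ∧ jacobiSym (n : ℤ) q = -1 := by
  by_contra hcon
  have h1 : ∀ k : ℕ, ∃ q : ℕ, q.Prime ∧ 3 ≤ q ∧ ∀ n : ℕ, n < q →
      (n : ℝ) ≤ Real.log q ^ (2 * (k + 1)) → jacobiSym (n : ℤ) q ≠ -1 := by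
    intro k
    by_contra hk
    apply hcon
    refine ⟨2 * (k + 1), fun q hq h3 => ?_⟩
    by_contra hn
    exact hk ⟨q, hq, h3, fun n hn1 hn2 hn3 => hn ⟨n, hn1, hn2, hn3⟩⟩
  choose q hqp hq3 hn using h1
  -- the constant `log 3 > 1`
  have hlam : 1 < Real.log 3 := by
    rw [Real.lt_log_iff_exp_lt (by norm_num)]
    linarith [Real.exp_one_lt_d9]
  have hqR : ∀ k, (3 : ℝ) ≤ q k := fun k => by exact_mod_cast hq3 k
  have hL : ∀ k, Real.log 3 ≤ Real.log (q k) := fun k =>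
    Real.log_le_log (by norm_num) (hqR k)
  have hL1 : ∀ k, 1 < Real.log (q k) := fun k => lt_of_lt_of_le hlam (hL k)
  have hLe : ∀ k, Real.log 3 ^ (k + 1) ≤ Real.log (q k) ^ (k + 1) := fun k =>
    pow_le_pow_left₀ (by linarith) (hL k) _
  have hLe1 : ∀ k, 1 < Real.log (q k) ^ (k + 1) := fun k =>
    one_lt_pow₀ (hL1 k) (by omega)
  have hsq : ∀ k, Real.log (q k) ^ (2 * (k + 1)) =
      Real.log (q k) ^ (k + 1) * Real.log (q k) ^ (k + 1) := fun k => by
    rw [two_mul, pow_add]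
  -- `L ^ (2 e) < q`
  have hlt : ∀ k, Real.log (q k) ^ (2 * (k + 1)) < q k := fun k => by
    obtain ⟨n, -, hn2, hn3⟩ := exists_nonres (hqp k) (hq3 k)
    by_contra hle
    rw [not_lt] at hle
    have : (n : ℝ) < q k := by exact_mod_cast hn2
    exact hn k n hn2 (this.le.trans hle) hn3
  have hpow : Tendsto (fun k : ℕ => Real.log 3 ^ (k + 1)) atTop atTop :=
    (tendsto_pow_atTop_atTop_of_one_lt hlam).comp (tendsto_add_atTop_nat 1)
  have hge : ∀ k, Real.log 3 ^ (k + 1) ≤ q k := fun k => by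
    have a1 := hlt k
    rw [hsq] at a1
    have a2 := hLe1 k
    have a3 := hLe k
    nlinarith
  have hqinf : Tendsto (fun k => (q k : ℝ)) atTop atTop := tendsto_atTop_mono hge hpow
  -- the lengths
  set H : ℕ → ℕ := fun k => ⌊(q k : ℝ) / Real.log (q k) ^ (k + 1)⌋₊ with hHdef
  have hx : ∀ k, Real.log (q k) ^ (k + 1) < (q k : ℝ) / Real.log (q k) ^ (k + 1) := fun k => by
    have a2 := hLe1 k
    rw [lt_div_iff₀ (by linarith), ← hsq]
    exact hlt k
  have hH1 : ∀ k, 1 ≤ H k := fun k => by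
    rw [hHdef]
    refine Nat.le_floor ?_
    push_cast
    linarith [hx k, hLe1 k]
  have hHle : ∀ k, (H k : ℝ) ≤ (q k : ℝ) / Real.log (q k) ^ (k + 1) := fun k =>
    Nat.floor_le (div_nonneg (Nat.cast_nonneg _) (by linarith [hLe1 k]))
  have hHlt : ∀ k, (q k : ℝ) / Real.log (q k) ^ (k + 1) < H k + 1 := fun k =>
    Nat.lt_floor_add_one _
  have hHq : ∀ k, H k ≤ q k := fun k => by
    have a1 := hHle k
    have a2 := hLe1 k
    have a3 : (q k : ℝ) / Real.log (q k) ^ (k + 1) ≤ q k :=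
      div_le_self (Nat.cast_nonneg _) a2.le
    exact_mod_cast a1.trans a3
  have hH0 : ∀ k, (0 : ℝ) < H k := fun k => by
    have := hH1 k
    exact_mod_cast this
  have hHinf : Tendsto (fun k => (H k : ℝ)) atTop atTop := by
    have b : Tendsto (fun k : ℕ => Real.log 3 ^ (k + 1) - 1) atTop atTop :=
      tendsto_atTop_add_const_right _ (-1) hpow
    refine tendsto_atTop_mono (fun k => ?_) b
    linarith [hHlt k, hx k, hLe k]
  have hratio : Tendsto (fun k => Real.log ((q k : ℝ) / (H k : ℝ)) /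
      Real.log (Real.log (q k : ℝ))) atTop atTop := by
    have b : Tendsto (fun k : ℕ => (k : ℝ)) atTop atTop := tendsto_natCast_atTop_atTop
    refine tendsto_atTop_mono (fun k => ?_) b
    have c1 : 0 < Real.log (Real.log (q k)) := Real.log_pos (hL1 k)
    rw [le_div_iff₀ c1]
    have c2 : Real.log (q k) ^ (k + 1) ≤ (q k : ℝ) / H k := by
      rw [le_div_iff₀ (hH0 k), mul_comm, ← le_div_iff₀ (by linarith [hLe1 k])]
      exact hHle k
    have c3 := Real.log_le_log (by linarith [hLe1 k]) c2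
    rw [Real.log_pow] at c3
    push_cast at c3
    nlinarith
  have hzero : Tendsto (fun k => (H k : ℝ) / q k) atTop (𝓝 0) := by
    have b := hpow.inv_tendsto_atTop
    refine squeeze_zero (fun k => by positivity) (fun k => ?_) b
    have d1 := hHle k
    have d2 := hLe k
    have d3 : 0 < Real.log 3 ^ (k + 1) := by positivity
    have d4 : (0 : ℝ) < q k := by linarith [hqR k]
    show (H k : ℝ) / q k ≤ (Real.log 3 ^ (k + 1))⁻¹
    rw [div_le_iff₀ d4]
    calc (H k : ℝ) ≤ (q k : ℝ) / Real.log (q k) ^ (k + 1) := d1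
      _ ≤ (q k : ℝ) / Real.log 3 ^ (k + 1) := div_le_div_of_nonneg_left d4.le d3 d2
      _ = (Real.log 3 ^ (k + 1))⁻¹ * q k := by
        rw [div_eq_mul_inv, mul_comm]
  obtain ⟨C, hC⟩ := sub q H hqp hq3 (fun k => ⟨hH1 k, hHq k⟩) hzero
    (h q H hqp (fun k => ⟨hH1 k, hHq k⟩) hHinf hqinf hratio)
  obtain ⟨k, ⟨n, hn1, hn2, hn3, hn4⟩, hk⟩ :=
    (hC.and (hpow.eventually_ge_atTop (2 * |C|))).exists
  -- the contradiction
  have e1 : Real.log (q k) ^ (2 * (k + 1)) < n := by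
    by_contra hle
    rw [not_lt] at hle
    exact hn k n hn2 hle hn4
  have e2 : (q k : ℝ) / H k ≤ 2 * Real.log (q k) ^ (k + 1) := by
    rw [div_le_iff₀ (hH0 k)]
    have f1 := hHlt k
    have f2 : (1 : ℝ) ≤ H k := by exact_mod_cast hH1 k
    rw [div_lt_iff₀ (by linarith [hLe1 k])] at f1
    nlinarith [hLe1 k]
  have e3 : C * q k / H k ≤ |C| * (2 * Real.log (q k) ^ (k + 1)) := by
    rw [mul_div_assoc]
    have g0 : 0 ≤ (q k : ℝ) / H k := by positivity
    calc C * ((q k : ℝ) / H k) ≤ |C| * ((q k : ℝ) / H k) :=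
          mul_le_mul_of_nonneg_right (le_abs_self C) g0
      _ ≤ _ := mul_le_mul_of_nonneg_left e2 (abs_nonneg C)
  have e4 : 2 * |C| ≤ Real.log (q k) ^ (k + 1) := hk.trans (hLe k)
  rw [hsq] at e1
  have e5 : |C| * (2 * Real.log (q k) ^ (k + 1)) ≤
      Real.log (q k) ^ (k + 1) * Real.log (q k) ^ (k + 1) := by
    have := mul_le_mul_of_nonneg_right e4 (show 0 ≤ Real.log (q k) ^ (k + 1) by
      linarith [hLe1 k])
    linarith
  linarith

end LegCLT
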