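import Pool.Agent.Lib.MP_f2256b_ntH79.Geo79

/-! # leaf: most values of the character sum are small -/

set_option autoImplicit false

open ProbabilityTheory MeasureTheory Filter Topology Finset

namespace LegCLT

private theorem prob_edge (q H d : ℕ) :
    ((range q).filter fun X => ¬ (d ≤ X ∧ X + H + d ≤ q)).card ≤ H + 2 * d := by
  have h1 : ((range q).filter fun X => ¬ (d ≤ X ∧ X + H + d ≤ q)) ⊆
      range d ∪ Finset.Ico (q + 1 - (H + d)) q := by
    intro X hX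
    rw [Finset.mem_filter, Finset.mem_range] at hX
    rw [Finset.mem_union, Finset.mem_range, Finset.mem_Ico]
    omega
  have h2 := Finset.card_le_card h1
  have h3 := Finset.card_union_le (range d) (Finset.Ico (q + 1 - (H + d)) q)
  rw [Finset.card_range, Nat.card_Ico] at h3
  omega

/-- PROOF: if `d ≤ X` and `X + H + d ≤ q`, then `|geo / τ| ≤ √q H / d ≤ (δ / 2) √H`; the number of other `X` is at
most `H + 2 d`; Chebyshev with `core` for the difference, `|S - geo / τ| ≥ (δ / 2) √H`. -/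
theorem prob {q H m d : ℕ} {δ : ℝ} (hq : q.Prime) (h3 : 3 ≤ q) (hH : 1 ≤ H) (hm : 1 ≤ m) (hd : 1 ≤ d)
    (h : ∀ n : ℕ, 1 ≤ n → n ≤ m → n < q → jacobiSym (n : ℤ) q = 1) (hδ : 0 < δ)
    (hdd : 2 * √((q : ℝ) * H) ≤ δ * d) :
    (((range q).filter fun X => δ ≤ |S q H X / √(H : ℝ)|).card : ℝ) ≤
      H + 2 * d + 8 * (q : ℝ) ^ 2 / (m * H * δ ^ 2) := by
  classical
  obtain ⟨τ, e, hτ, he, hcore⟩ := core hq h3 hm h
  have hodd : Odd q := hq.odd_of_ne_two (by omega)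
  have hH0 : (0 : ℝ) < H := by exact_mod_cast hH
  have hq0 : (0 : ℝ) < q := by exact_mod_cast hq.pos
  have hd0 : (0 : ℝ) < d := by exact_mod_cast hd
  have hm0 : (0 : ℝ) < m := by exact_mod_cast hm
  have hsH : 0 < √(H : ℝ) := Real.sqrt_pos.2 hH0
  have hsq : 0 < √(q : ℝ) := Real.sqrt_pos.2 hq0
  have hτ' : ‖τ‖ = √(q : ℝ) := by
    rw [← hτ, Real.sqrt_sq (norm_nonneg _)]
  have hH2 : √(H : ℝ) ^ 2 = H := Real.sq_sqrt hH0.le
  have hq2 : √(q : ℝ) ^ 2 = q := Real.sq_sqrt hq0.le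
  rw [Real.sqrt_mul hq0.le] at hdd
  have hmain : ∀ X ∈ (((range q).filter fun X => δ ≤ |S q H X / √(H : ℝ)|).filter
      fun X => d ≤ X ∧ X + H + d ≤ q), δ ^ 2 * H / 4 ≤ ‖(S q H X : ℂ) - geo q H e X / τ‖ ^ 2 := by
    intro X hX
    rw [Finset.mem_filter, Finset.mem_filter] at hX
    obtain ⟨⟨_, hS⟩, h4, h5⟩ := hX
    have h6 := geo_le (e := e) hodd he hd h4 h5
    have h7 : ‖geo q H e X / τ‖ ≤ δ / 2 * √(H : ℝ) := by
      rw [norm_div, hτ', div_le_iff₀ hsq]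
      refine h6.trans ?_
      rw [div_le_iff₀ hd0]
      have h8 : (H : ℝ) * q = (√(H : ℝ) * √(q : ℝ)) * (√(H : ℝ) * √(q : ℝ)) := by
        rw [← hH2, ← hq2]
        rw [Real.sqrt_sq hsH.le, Real.sqrt_sq hsq.le]
        ring
      have h9 : 0 < √(H : ℝ) * √(q : ℝ) := mul_pos hsH hsq
      rw [h8]
      nlinarith
    have h8 : δ * √(H : ℝ) ≤ |S q H X| := by
      rw [abs_div, abs_of_pos hsH, le_div_iff₀ hsH] at hS
      exact hS
    have h9 : ‖(S q H X : ℂ)‖ = |S q H X| := by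
      rw [Complex.norm_real, Real.norm_eq_abs]
    have h10 : δ / 2 * √(H : ℝ) ≤ ‖(S q H X : ℂ) - geo q H e X / τ‖ := by
      have h11 := norm_sub_norm_le (S q H X : ℂ) (geo q H e X / τ)
      rw [h9] at h11
      linarith
    have h11 : (0 : ℝ) ≤ δ / 2 * √(H : ℝ) := by positivity
    calc δ ^ 2 * H / 4 = (δ / 2 * √(H : ℝ)) ^ 2 := by rw [mul_pow, hH2]; ring
      _ ≤ ‖(S q H X : ℂ) - geo q H e X / τ‖ ^ 2 := pow_le_pow_left₀ h11 h10 2
  have hsum : (((((range q).filter fun X => δ ≤ |S q H X / √(H : ℝ)|).filter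
      fun X => d ≤ X ∧ X + H + d ≤ q).card : ℕ) : ℝ) * (δ ^ 2 * H / 4) ≤ 2 * (q : ℝ) ^ 2 / m := by
    rw [← nsmul_eq_mul, ← Finset.sum_const]
    refine (Finset.sum_le_sum hmain).trans ?_
    refine (Finset.sum_le_sum_of_subset_of_nonneg ?_ ?_).trans (hcore H hH)
    · exact (Finset.filter_subset _ _).trans (Finset.filter_subset _ _)
    · intro X _ _
      positivity
  have hfin : (((((range q).filter fun X => δ ≤ |S q H X / √(H : ℝ)|).filter
      fun X => d ≤ X ∧ X + H + d ≤ q).card : ℕ) : ℝ) ≤ 8 * (q : ℝ) ^ 2 / (m * H * δ ^ 2) := by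
    rw [le_div_iff₀ (by positivity)]
    rw [le_div_iff₀ hm0] at hsum
    linarith
  have hsplit : ((range q).filter fun X => δ ≤ |S q H X / √(H : ℝ)|) ⊆
      ((range q).filter fun X => ¬ (d ≤ X ∧ X + H + d ≤ q)) ∪
        (((range q).filter fun X => δ ≤ |S q H X / √(H : ℝ)|).filter
          fun X => d ≤ X ∧ X + H + d ≤ q) := by
    intro X hX
    rw [Finset.mem_union]
    by_cases h4 : d ≤ X ∧ X + H + d ≤ q
    · exact Or.inr (Finset.mem_filter.2 ⟨hX, h4⟩)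
    · exact Or.inl (Finset.mem_filter.2 ⟨(Finset.mem_filter.1 hX).1, h4⟩)
  have hcard := (Finset.card_le_card hsplit).trans (Finset.card_union_le _ _)
  have hedge := prob_edge q H d
  have hcard' : (((range q).filter fun X => δ ≤ |S q H X / √(H : ℝ)|).card : ℝ) ≤
      ((((range q).filter fun X => ¬ (d ≤ X ∧ X + H + d ≤ q)).card : ℕ) : ℝ) +
        (((((range q).filter fun X => δ ≤ |S q H X / √(H : ℝ)|).filter
          fun X => d ≤ X ∧ X + H + d ≤ q).card : ℕ) : ℝ) := by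
    exact_mod_cast hcard
  have hedge' : ((((range q).filter fun X => ¬ (d ≤ X ∧ X + H + d ≤ q)).card : ℕ) : ℝ) ≤
      (H : ℝ) + 2 * d := by
    exact_mod_cast hedge
  linarith

end LegCLT
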