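import Pool.Agent.Lib.MP_f2256b_ntH79.Lim79

/-! # leaf: the central limit theorem forces a small non-residue -/

set_option autoImplicit false

open ProbabilityTheory MeasureTheory Filter Topology Finset

namespace LegCLT

private theorem jac_one {q n : ℕ} (hq : q.Prime) (h1 : 1 ≤ n) (hn : n < q)
    (h : jacobiSym (n : ℤ) q ≠ -1) : jacobiSym (n : ℤ) q = 1 := by
  have : NeZero q := ⟨hq.ne_zero⟩
  rcases jacobiSym.trichotomy (n : ℤ) q with h0 | h0 | h0
  · rw [jacobiSym.eq_zero_iff_not_coprime, Int.gcd_natCast_natCast] at h0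
    exact absurd (((hq.coprime_iff_not_dvd).2 (Nat.not_dvd_of_pos_of_lt h1 hn)).symm) h0
  · exact h0
  · exact absurd h0 h

private theorem gauss_pos : (∫ x, min |x| 1 ∂(gaussianReal 0 1)) ≠ 0 := by
  intro hint
  have hcont : Continuous fun x : ℝ => min |x| 1 := continuous_abs.min continuous_const
  have hI : Integrable (fun x : ℝ => min |x| 1) (gaussianReal 0 1) := by
    refine Integrable.of_bound hcont.aestronglyMeasurable 1 (ae_of_all _ fun x => ?_)
    rw [Real.norm_eq_abs, abs_of_nonneg (le_min (abs_nonneg x) zero_le_one)]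
    exact min_le_right _ _
  rw [integral_eq_zero_iff_of_nonneg (fun x => le_min (abs_nonneg x) zero_le_one) hI] at hint
  have hna : NullSingletonClass (gaussianReal 0 1) := nullSingletonClass_gaussianReal one_ne_zero
  have h2 : ∀ᵐ x ∂(gaussianReal 0 1), x ≠ 0 := by
    rw [ae_iff]
    have : {a : ℝ | ¬ a ≠ 0} = {0} := by
      ext x
      simp
    rw [this]
    exact measure_singleton 0
  have h3 : ∀ᵐ x ∂(gaussianReal 0 1), False := by
    filter_upwards [hint, h2] with x hx hx0
    have hpos : 0 < min |x| 1 := lt_min (abs_pos.2 hx0) one_pos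
    simp only [Pi.zero_apply] at hx
    exact absurd hx hpos.ne'
  rw [Filter.eventually_false_iff_eq_bot, ae_eq_bot] at h3
  exact IsProbabilityMeasure.ne_zero (gaussianReal 0 1) h3

/-- PROOF: otherwise for each `j` there are infinitely many `k` such that `(n / q k) ≠ -1`, hence `= 1`, for all
`1 ≤ n < q k`, `n ≤ j q k / H k`; extract a subsequence, `y = ⌊j q / H⌋`, apply `lim` and `CLT` along it to
`f x = min |x| 1` or `x ^ 2 / (1 + x ^ 2)`: the integral over the Gaussian is positive, `f 0 = 0`. -/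
theorem sub (q H : ℕ → ℕ) (hq : ∀ k, (q k).Prime) (h3 : ∀ k, 3 ≤ q k)
    (hH : ∀ k, 1 ≤ H k ∧ H k ≤ q k) (h0 : Tendsto (fun k => (H k : ℝ) / q k) atTop (𝓝 0))
    (hc : CLT q H) : ∃ C : ℝ, ∀ᶠ k in atTop, ∃ n : ℕ, 1 ≤ n ∧ n < q k ∧
      (n : ℝ) ≤ C * q k / H k ∧ jacobiSym (n : ℤ) (q k) = -1 := by
  by_contra hcon
  push Not at hcon
  obtain ⟨φ, hφ, hP⟩ := Filter.extraction_forall_of_frequently fun j : ℕ => hcon (j : ℝ)
  have hφt : Tendsto φ atTop atTop := hφ.tendsto_atTop
  have hy : Tendsto (fun j : ℕ => ((⌊(j : ℝ) * q (φ j) / H (φ j)⌋₊ : ℕ) : ℝ) * H (φ j) / q (φ j))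
      atTop atTop := by
    refine tendsto_atTop_mono (f := fun j : ℕ => (j : ℝ) - 1) (fun j => ?_)
      (tendsto_atTop_add_const_right _ _ tendsto_natCast_atTop_atTop)
    have hqp : (0 : ℝ) < q (φ j) := by exact_mod_cast (hq (φ j)).pos
    have hHp : (0 : ℝ) < H (φ j) := by exact_mod_cast (hH (φ j)).1
    have hHq : (H (φ j) : ℝ) ≤ q (φ j) := by exact_mod_cast (hH (φ j)).2
    have hfl := (Nat.lt_floor_add_one ((j : ℝ) * q (φ j) / H (φ j))).le
    rw [le_div_iff₀ hqp]
    rw [div_le_iff₀ hHp] at hfl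
    nlinarith
  have h1 := lim (fun j => q (φ j)) (fun j => H (φ j))
    (fun j => ⌊(j : ℝ) * q (φ j) / H (φ j)⌋₊) (fun j => hq _) (fun j => h3 _) (fun j => hH _)
    (h0.comp hφt) hy
    (by
      intro j n hn1 hn2 hn3
      refine jac_one (hq _) hn1 hn3 (hP j n hn1 hn3 ?_)
      have hqp : (0 : ℝ) ≤ q (φ j) := Nat.cast_nonneg _
      have hHp : (0 : ℝ) ≤ H (φ j) := Nat.cast_nonneg _
      exact (Nat.le_floor_iff (by positivity)).1 hn2)
    (fun x => min |x| 1) (continuous_abs.min continuous_const)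
    ⟨1, fun x => by
      rw [abs_of_nonneg (le_min (abs_nonneg x) zero_le_one)]
      exact min_le_right _ _⟩
  have h2 := (hc (fun x => min |x| 1) (continuous_abs.min continuous_const)
    ⟨1, fun x => by
      rw [abs_of_nonneg (le_min (abs_nonneg x) zero_le_one)]
      exact min_le_right _ _⟩).comp hφt
  have h4 := tendsto_nhds_unique h2 h1
  simp only [abs_zero] at h4
  exact gauss_pos (h4.trans (min_eq_left zero_le_one))

end LegCLT
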